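import Pool.Agent.Helper19.HO.Defs
import Mathlib.Logic.Equiv.Fin.Basic
import Mathlib.Data.Fintype.Perm
import Mathlib.Algebra.CharP.Two

/-!
# Project HO, piece HO-2: subdivision commutes with the coboundary
-/

namespace Pool.Agent.Helper19.HO

section

variable {V : Type*} [AddCommGroup V] [Module ℝ V]

theorem bary_swap {k : ℕ} (v : Fin (k + 2) → V) (s : Equiv.Perm (Fin (k + 2))) (i : Fin (k + 1))
    {j : Fin (k + 2)} (hj : j ≠ i.castSucc) :
    bary v (s * Equiv.swap i.castSucc i.succ) j = bary v s j := by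
  unfold bary
  congr 1
  refine Finset.sum_equiv (Equiv.swap i.castSucc i.succ) ?_ (fun _ _ => rfl)
  intro l
  have hj' : (j : ℕ) ≠ (i : ℕ) := fun h => hj (Fin.ext h)
  simp only [Finset.mem_Iic]
  rcases eq_or_ne l i.castSucc with rfl | h1
  · rw [Equiv.swap_apply_left, Fin.le_def, Fin.le_def, Fin.val_succ, Fin.val_castSucc]
    omega
  · rcases eq_or_ne l i.succ with rfl | h2
    · rw [Equiv.swap_apply_right, Fin.le_def, Fin.le_def, Fin.val_succ, Fin.val_castSucc]
      omega
    · rw [Equiv.swap_apply_of_ne_of_ne h1 h2]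

theorem sum_castSucc_eq_zero {k : ℕ} (a : (Fin (k + 1) → V) → ZMod 2) (v : Fin (k + 2) → V)
    (i : Fin (k + 1)) :
    ∑ s : Equiv.Perm (Fin (k + 2)), a (bary v s ∘ i.castSucc.succAbove) = 0 := by
  refine Finset.sum_involution (fun s _ => s * Equiv.swap i.castSucc i.succ) ?_ ?_ ?_ ?_
  · intro s _
    have h : bary v (s * Equiv.swap i.castSucc i.succ) ∘ i.castSucc.succAbove =
        bary v s ∘ i.castSucc.succAbove := by
      funext j
      exact bary_swap v s i (Fin.succAbove_ne _ _)
    rw [h]
    exact CharTwo.add_self_eq_zero _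
  · intro s _ _ h
    have h2 : Equiv.swap i.castSucc i.succ = 1 := mul_left_cancel (h.trans (mul_one s).symm)
    rw [Equiv.Perm.one_def, Equiv.swap_eq_refl_iff] at h2
    exact (Fin.castSucc_lt_succ (i := i)).ne h2
  · intro s _
    exact Finset.mem_univ _
  · intro s _
    simp [mul_assoc]

/-- the permutation sending the last index to `i` and otherwise acting as `s`. -/
def extP {n : ℕ} (p : Fin (n + 1) × Equiv.Perm (Fin n)) : Equiv.Perm (Fin (n + 1)) :=
  (finSuccEquiv' (Fin.last n)).trans ((Equiv.optionCongr p.2).trans (finSuccEquiv' p.1).symm)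

theorem extP_last {n : ℕ} (p : Fin (n + 1) × Equiv.Perm (Fin n)) : extP p (Fin.last n) = p.1 := by
  simp [extP]

theorem extP_castSucc {n : ℕ} (p : Fin (n + 1) × Equiv.Perm (Fin n)) (j : Fin n) :
    extP p j.castSucc = p.1.succAbove (p.2 j) := by
  have h : finSuccEquiv' (Fin.last n) j.castSucc = some j := by
    rw [← Fin.succAbove_last_apply]
    exact finSuccEquiv'_succAbove _ _
  simp [extP, h]

theorem extP_bijective {n : ℕ} : Function.Bijective (extP (n := n)) := by
  rw [Fintype.bijective_iff_injective_and_card]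
  constructor
  · intro p q h
    have h1 : p.1 = q.1 := by rw [← extP_last p, ← extP_last q, h]
    have h2 : p.2 = q.2 := by
      ext1 j
      have h3 := extP_castSucc p j
      rw [h, extP_castSucc q j, h1] at h3
      exact (Fin.succAbove_right_injective h3).symm
    exact Prod.ext h1 h2
  · rw [Fintype.card_prod, Fintype.card_fin, Fintype.card_perm, Fintype.card_perm,
      Fintype.card_fin, Fintype.card_fin, Nat.factorial_succ]

theorem bary_extP {k : ℕ} (v : Fin (k + 2) → V) (p : Fin (k + 2) × Equiv.Perm (Fin (k + 1)))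
    (j : Fin (k + 1)) :
    bary v (extP p) j.castSucc = bary (v ∘ p.1.succAbove) p.2 j := by
  unfold bary
  rw [Fin.val_castSucc]
  congr 1
  rw [← Fin.map_castSuccEmb_Iic, Finset.sum_map]
  refine Finset.sum_congr rfl (fun l _ => ?_)
  have h := extP_castSucc p l
  simp only [Fin.coe_castSuccEmb, Function.comp_apply]
  rw [h]

theorem sd_cob {k : ℕ} (a : (Fin (k + 1) → V) → ZMod 2) : sd (cob a) = cob (sd a) := by
  funext v
  unfold sd cob
  rw [Finset.sum_comm, Fin.sum_univ_castSucc]
  rw [Finset.sum_eq_zero (fun i _ => sum_castSucc_eq_zero a v i), zero_add]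
  rw [← Fintype.sum_prod_type' (fun i s => a (bary (v ∘ Fin.succAbove i) s))]
  symm
  refine Fintype.sum_bijective extP extP_bijective _ _ (fun p => ?_)
  congr 1
  funext j
  rw [Function.comp_apply, Fin.succAbove_last_apply, bary_extP]

theorem sd_iterate_cob {k : ℕ} (a : (Fin (k + 1) → V) → ZMod 2) (N : ℕ) :
    sd^[N] (cob a) = cob (sd^[N] a) := by
  induction N generalizing a with
  | zero => rfl
  | succ N ih => rw [Function.iterate_succ_apply, Function.iterate_succ_apply, sd_cob, ih]

theorem sd_add {k : ℕ} (a a' : (Fin (k + 1) → V) → ZMod 2) :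
    sd (fun v => a v + a' v) = fun v => sd a v + sd a' v := by
  funext v
  exact Finset.sum_add_distrib

theorem sd_iterate_add {k : ℕ} (a a' : (Fin (k + 1) → V) → ZMod 2) (N : ℕ) :
    sd^[N] (fun v => a v + a' v) = fun v => (sd^[N] a) v + (sd^[N] a') v := by
  induction N generalizing a a' with
  | zero => rfl
  | succ N ih =>
    rw [Function.iterate_succ_apply, Function.iterate_succ_apply, Function.iterate_succ_apply,
      sd_add, ih]

theorem sd_neg {k : ℕ} (a : (Fin (k + 1) → V) → ZMod 2) :
    sd (fun v => a (-v)) = fun v => sd a (-v) := by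
  funext v
  unfold sd
  refine Finset.sum_congr rfl (fun s _ => ?_)
  change a (-bary v s) = a (bary (-v) s)
  congr 1
  funext j
  simp only [bary, Pi.neg_apply, Finset.sum_neg_distrib, smul_neg]

theorem sd_iterate_neg {k : ℕ} (a : (Fin (k + 1) → V) → ZMod 2) (N : ℕ) :
    sd^[N] (fun v => a (-v)) = fun v => (sd^[N] a) (-v) := by
  induction N generalizing a with
  | zero => rfl
  | succ N ih => rw [Function.iterate_succ_apply, Function.iterate_succ_apply, sd_neg, ih]

end

end Pool.Agent.Helper19.HO
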